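import Mathlib
import Pool.Agent.W327.CR.Lin
import Pool.Agent.W591.CR.Link
import Pool.Agent.Chud.PBZ
import Pool.Agent.Chud.PD1
import Pool.Agent.H248R6.Dim

set_option autoImplicit false

/-!
# Orders of vanishing and the inequality of Bezout
(taken from `Pool.Agent.TH167.SH.Base` and `Pool.Agent.W609.CR.Prime`)
-/

namespace Pool.Agent.TH415.HB

open MvPolynomial Pool.Agent.W609.CR

theorem t_lin : P_LIN := Pool.Agent.W327.CR.t_lin

theorem t_link : P_LINK := Pool.Agent.W591.CR.t_link

theorem mem_VS {K : Type} [Field K] {ι : Type} (v : ι → Fin 3 → K) (w : ι → ℕ) (d : ℕ)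
    (f : MvPolynomial (Fin 3) K) :
    f ∈ VS v w d ↔ f.IsHomogeneous d ∧ ∀ i, Van (v i) (w i) f := by
  unfold VS Van
  rw [Submodule.mem_inf, Submodule.restrictScalars_mem, Ideal.mem_iInf, mem_homogeneousSubmodule]

theorem aff_ne {K : Type} [Field K] (a : Fin 2 → K) : aff a ≠ 0 := by
  intro h
  have := congrFun h 2
  simp [aff] at this

noncomputable def od {K : Type} [Field K] (v : Fin 3 → K) (f : MvPolynomial (Fin 3) K) : ℕ∞ :=
  ((shift (n := 2) v f : MvPolynomial (Fin 3) K) : MvPowerSeries (Fin 3) K).order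

theorem van_iff {K : Type} [Field K] (v : Fin 3 → K) (m : ℕ) (f : MvPolynomial (Fin 3) K) :
    Van v m f ↔ (m : ℕ∞) ≤ od v f := by
  unfold Van od
  rw [mem_ker_pow_iff (n := 2)]
  constructor
  · intro h
    apply MvPowerSeries.nat_le_order
    intro d hd
    rw [MvPolynomial.coeff_coe]
    exact h d hd
  · intro h b hb
    have h1 := MvPowerSeries.coeff_of_lt_order (f := ((shift (n := 2) v f :
      MvPolynomial (Fin 3) K) : MvPowerSeries (Fin 3) K)) (d := b)
      (lt_of_lt_of_le (by exact_mod_cast hb) h)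
    rw [MvPolynomial.coeff_coe] at h1
    exact h1

theorem od_mul {K : Type} [Field K] (v : Fin 3 → K) (f g : MvPolynomial (Fin 3) K) :
    od v (f * g) = od v f + od v g := by
  unfold od
  rw [map_mul, MvPolynomial.coe_mul, MvPowerSeries.order_mul]

theorem ord_iff {K : Type} [Field K] (v : Fin 3 → K) (m : ℕ) (f : MvPolynomial (Fin 3) K) :
    Ord v m f ↔ od v f = (m : ℕ∞) := by
  unfold Pool.Agent.W609.CR.Ord
  rw [van_iff, van_iff]
  constructor
  · rintro ⟨h1, h2⟩
    refine le_antisymm ?_ h1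
    rw [not_le] at h2
    exact ENat.lt_add_one_iff (by simp) |>.1 (by exact_mod_cast h2)
  · intro h
    rw [h]
    refine ⟨le_rfl, ?_⟩
    rw [not_le]
    exact_mod_cast Nat.lt_succ_self m

theorem van_mul {K : Type} [Field K] {v : Fin 3 → K} {a b : ℕ} {f g : MvPolynomial (Fin 3) K}
    (hf : Van v a f) (hg : Van v b g) : Van v (a + b) (f * g) := by
  unfold Van at *
  rw [pow_add]
  exact Ideal.mul_mem_mul hf hg

theorem van_zero {K : Type} [Field K] (v : Fin 3 → K) (f : MvPolynomial (Fin 3) K) :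
    Van v 0 f := by
  unfold Van
  simp

theorem van_mono {K : Type} [Field K] {v : Fin 3 → K} {a b : ℕ} {f : MvPolynomial (Fin 3) K}
    (hab : a ≤ b) (hf : Van v b f) : Van v a f := by
  rw [van_iff] at *
  exact le_trans (by exact_mod_cast hab) hf

theorem ord_mul {K : Type} [Field K] {v : Fin 3 → K} {a b : ℕ} {f g : MvPolynomial (Fin 3) K}
    (hf : Ord v a f) (hg : Ord v b g) : Ord v (a + b) (f * g) := by
  rw [ord_iff] at *
  rw [od_mul, hf, hg]
  push_cast
  rfl

theorem ord_unique {K : Type} [Field K] {v : Fin 3 → K} {a b : ℕ} {f : MvPolynomial (Fin 3) K}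
    (hf : Ord v a f) (hg : Ord v b f) : a = b := by
  rw [ord_iff] at *
  rw [hf] at hg
  exact_mod_cast hg

def trm {K : Type} [Field K] (a : Fin 2 → K) : Matrix (Fin 3) (Fin 3) K :=
  !![1, 0, a 0; 0, 1, a 1; 0, 0, 1]

theorem trm_det {K : Type} [Field K] (a : Fin 2 → K) : (trm a).det = 1 := by
  simp [trm, Matrix.det_fin_three]

theorem trm_bs {K : Type} [Field K] (a : Fin 2 → K) : (trm a).mulVec (bs 2) = aff a := by
  funext r
  simp only [bs, Matrix.mulVec_single_one]
  fin_cases r <;> simp [trm, aff, Matrix.col]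

theorem van_le {K : Type} [Field K] {a : Fin 2 → K} {m e : ℕ} {f : MvPolynomial (Fin 3) K}
    (hf0 : f ≠ 0) (hf : f.IsHomogeneous e) (h : Van (aff a) m f) : m ≤ e := by
  obtain ⟨hL, -⟩ := t_lin K
  have hd : (trm a).det ≠ 0 := by rw [trm_det]; exact one_ne_zero
  obtain ⟨h1, -, h3, -⟩ := hL (trm a) hd
  have h4 := h1 f e hf
  have h5 : Van (bs 2) m (lin (trm a) f) := by
    rw [← h3, trm_bs]
    exact h
  have h6 : lin (trm a) f ≠ 0 := by
    intro h7
    have h8 : ∀ n : ℕ, Van (aff a) n f := by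
      intro n
      rw [← trm_bs, h3, h7]
      unfold Van
      exact Submodule.zero_mem _
    have h9 : od (aff a) f = ⊤ := by
      rw [ENat.eq_top_iff_forall_ge]
      intro n
      exact (van_iff _ _ _).1 (h8 n)
    unfold od at h9
    rw [MvPowerSeries.order_eq_top_iff] at h9
    have h10 : shift (n := 2) (aff a) f = 0 := by
      have : ((shift (n := 2) (aff a) f : MvPolynomial (Fin 3) K) : MvPowerSeries (Fin 3) K) =
        ((0 : MvPolynomial (Fin 3) K) : MvPowerSeries (Fin 3) K) := by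
        rw [h9, MvPolynomial.coe_zero]
      exact MvPolynomial.coe_injective _ _ this
    have h11 := shift_shift (n := 2) (aff a) f
    rw [h10, map_zero] at h11
    exact hf0 h11.symm
  obtain ⟨b, hb⟩ := MvPolynomial.support_nonempty.2 h6
  have h7 := exponent_le (n := 2) h4 2 h5 hb
  omega

theorem pd_mem {K : Type} [Field K] {v : Fin 3 → K} {G : MvPolynomial (Fin 3) K}
   (h : G ∈ (RingHom.ker (MvPolynomial.eval v)) ^ 2) (l : Fin 3) : eval v (pderiv l G) = 0 := by
  rw [pow_two] at h
  refine Submodule.mul_induction_on h ?_ ?_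
  · intro a ha b hb
    rw [RingHom.mem_ker] at ha hb
    rw [Derivation.leibniz]
    simp [ha, hb]
  · intro a b ha hb
    rw [map_add, map_add, ha, hb, add_zero]

theorem van_one {K : Type} [Field K] (v : Fin 3 → K) (f : MvPolynomial (Fin 3) K) :
    Van v 1 f ↔ MvPolynomial.eval v f = 0 := by
  unfold Van
  rw [pow_one, RingHom.mem_ker]

theorem vs_eq_forms {K : Type} [Field K] {s : ℕ} (P : Fin s → Fin 2 → K) (w : Fin s → ℕ) (d : ℕ) :
    VS (fun j => aff (P j)) w d = Pool.Agent.H248R5.forms w P d := by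
  ext f
  unfold VS Pool.Agent.H248R5.forms
  rw [Submodule.mem_inf, Submodule.mem_inf, Submodule.restrictScalars_mem,
    Submodule.restrictScalars_mem, Ideal.mem_iInf, Ideal.mem_iInf, mem_homogeneousSubmodule]
  constructor
  · rintro ⟨h1, h2⟩
    exact ⟨h1, fun i => (t_link K (P i) (w i) f d h1).1 (h2 i)⟩
  · rintro ⟨h1, h2⟩
    exact ⟨h1, fun i => (t_link K (P i) (w i) f d h1).2 (h2 i)⟩

theorem vs_fin {K : Type} [Field K] {s : ℕ} (v : Fin s → Fin 3 → K) (w : Fin s → ℕ) (d : ℕ) :
    Module.Finite K ↥(VS v w d) := by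
  have hfin : Module.Finite K ↥(homogeneousSubmodule (Fin 3) K d) :=
    Module.Finite.iff_fg.2 (homogeneousSubmodule_fg _ _ d)
  exact Submodule.finiteDimensional_of_le inf_le_left

theorem le_dim {K : Type} [Field K] {n : ℕ} (w : Fin n → ℕ) (P : Fin n → Fin 2 → K) (e : ℕ) :
    (e + 2).choose 2 ≤ Module.finrank K ↥(Pool.Agent.H248R5.forms w P e) + ∑ i, (w i + 1).choose 2 := by
  have hfin : Module.Finite K ↥(homogeneousSubmodule (Fin 3) K e) :=
    Module.Finite.iff_fg.2 (homogeneousSubmodule_fg _ _ e)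
  have hq : ∀ i, Module.Finite K (Pool.Agent.H248R5.Quo K (w i)) := fun i => Pool.Agent.H248R5.quo_finite (w i)
  have h1 := LinearMap.finrank_range_add_finrank_ker (Pool.Agent.H248R5.ev w P e)
  have h2 : Module.finrank K ↥(Pool.Agent.H248R5.forms w P e) =
      Module.finrank K ↥(LinearMap.ker (Pool.Agent.H248R5.ev w P e)) := by
    rw [Pool.Agent.H248R5.forms_eq_map]
    exact LinearEquiv.finrank_eq (Submodule.equivSubtypeMap _ _).symm
  have h3 : Module.finrank K (∀ i, Pool.Agent.H248R5.Quo K (w i)) ≤ ∑ i, (w i + 1).choose 2 := by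
    rw [Module.finrank_pi_fintype]
    exact Finset.sum_le_sum fun i _ => Pool.Agent.H248R5.finrank_quo_le (w i)
  have h4 := Pool.Agent.H248R5.le_finrank_forms (K := K) e
  have h5 := Submodule.finrank_le (LinearMap.range (Pool.Agent.H248R5.ev w P e))
  omega

/-- The inequality of Bezout. -/
theorem bez {K ι : Type} [Field K] [Fintype ι] {P : ι → Fin 2 → K} (hP : Function.Injective P)
    {u w : ι → ℕ} {G F : MvPolynomial (Fin 3) K} {e d : ℕ} (hG : Irreducible G)
    (hGe : G.IsHomogeneous e) (hu : ∀ j, Van (aff (P j)) (u j) G) (hF0 : F ≠ 0)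
    (hFd : F.IsHomogeneous d) (hw : ∀ j, Van (aff (P j)) (w j) F) (hnd : ¬ G ∣ F) :
    ∑ j, u j * w j ≤ e * d := by
  classical
  let p : ι → Pool.Agent.Chud.PP K 2 := fun j => Projectivization.mk K (aff (P j)) (aff_ne _)
  have hp : Function.Injective p := by
    intro i j hij
    have h1 := (Projectivization.mk_eq_mk_iff' K _ _ (aff_ne (P i)) (aff_ne (P j))).1 hij
    obtain ⟨c, hc⟩ := h1
    have h2 := congrFun hc 2
    have h3 : c = 1 := by simpa [aff] using h2
    rw [h3, one_smul] at hc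
    refine hP (funext fun l => ?_)
    fin_cases l
    · have := congrFun hc 0
      simpa [aff] using this.symm
    · have := congrFun hc 1
      simpa [aff] using this.symm
  let r : (ι → ℕ) → Pool.Agent.Chud.PP K 2 → ℕ := fun w q =>
    if h : ∃ j, p j = q then w h.choose else 0
  have hr : ∀ (w : ι → ℕ) j, r w (p j) = w j := by
    intro w j
    have h : ∃ i, p i = p j := ⟨j, rfl⟩
    show (if h : ∃ i, p i = p j then w h.choose else 0) = w j
    rw [dif_pos h]
    exact congrArg w (hp h.choose_spec)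
  have hvan : ∀ (f : MvPolynomial (Fin 3) K) (n : ℕ), f.IsHomogeneous n → ∀ j (m : ℕ),
      Van (aff (P j)) m f → f ∈ Pool.Agent.Chud.mI (p j).rep ^ m := by
    intro f n hf j m hj
    obtain ⟨c, hc⟩ := Projectivization.exists_smul_eq_mk_rep K (aff (P j)) (aff_ne _)
    have h1 := ((t_lin K).2 f n hf (c : K) c.ne_zero (aff (P j)) m).2 hj
    have h2 : (c : K) • aff (P j) = (p j).rep := hc
    rw [h2] at h1
    exact h1
  have hrel : IsRelPrime G F := (Irreducible.isRelPrime_iff_not_dvd hG).2 hnd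
  have hb := Pool.Agent.Chud.bezout hGe hFd hG.ne_zero hF0 hrel (Finset.univ.image p) (r u) (r w)
    (by
      intro q hq
      obtain ⟨j, _, rfl⟩ := Finset.mem_image.1 hq
      rw [hr]
      exact hvan G e hGe j _ (hu j)) (by
      intro q hq
      obtain ⟨j, _, rfl⟩ := Finset.mem_image.1 hq
      rw [hr]
      exact hvan F d hFd j _ (hw j))
  rw [Finset.sum_image (fun a _ b _ h => hp h)] at hb
  simp only [hr] at hb
  exact hb

end Pool.Agent.TH415.HB
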