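import Mathlib
import Pool.Agent.W609.CR.Stm
import Pool.Agent.Chud.PD1

set_option autoImplicit false

/-!
# Sign changes and the cover (x : y : z) -> (x^2 : y^2 : z^2)
-/

namespace Pool.Agent.TH415.HB

open MvPolynomial Pool.Agent.W609.CR

/-- The group of sign changes of the affine plane. -/
abbrev Sg : Type := ℤˣ × ℤˣ

/-- The signs of the three coordinates. -/
noncomputable def sg (ε : Sg) : Fin 3 → ℂ := ![(((ε.1 : ℤˣ) : ℤ) : ℂ), (((ε.2 : ℤˣ) : ℤ) : ℂ), 1]

/-- The action on forms. -/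
noncomputable def sm (ε : Sg) : MvPolynomial (Fin 3) ℂ →ₐ[ℂ] MvPolynomial (Fin 3) ℂ :=
  lin (Matrix.diagonal (sg ε))

theorem sg_mul (ε η : Sg) (i : Fin 3) : sg (ε * η) i = sg ε i * sg η i := by
  fin_cases i <;> simp [sg]

theorem sg_one (i : Fin 3) : sg 1 i = 1 := by
  fin_cases i <;> simp [sg]

theorem sg_sq (ε : Sg) (i : Fin 3) : sg ε i ^ 2 = 1 := by
  have h : ∀ u : ℤˣ, (((u : ℤˣ) : ℤ) : ℂ) ^ 2 = 1 := by
    intro u
    rcases Int.units_eq_one_or u with rfl | rfl <;> simp
  fin_cases i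
  · exact h ε.1
  · exact h ε.2
  · simp [sg]

theorem sg_ne (ε : Sg) (i : Fin 3) : sg ε i ≠ 0 := by
  intro h
  have := sg_sq ε i
  rw [h] at this
  norm_num at this

theorem sm_X (ε : Sg) (i : Fin 3) : sm ε (X i) = C (sg ε i) * X i := by
  unfold sm lin
  rw [aeval_X, Finset.sum_eq_single i]
  · rw [Matrix.diagonal_apply_eq]
  · intro j _ hj
    rw [Matrix.diagonal_apply_ne _ (Ne.symm hj), map_zero, zero_mul]
  · simp

theorem sm_sm (ε η : Sg) (f : MvPolynomial (Fin 3) ℂ) : sm ε (sm η f) = sm (ε * η) f := by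
  have h : (sm ε).comp (sm η) = sm (ε * η) := by
    apply MvPolynomial.algHom_ext
    intro i
    rw [AlgHom.comp_apply, sm_X, sm_X, map_mul, sm_X, sg_mul, ← MvPolynomial.algebraMap_eq,
      AlgHom.commutes, map_mul, MvPolynomial.algebraMap_eq]
    ring
  exact DFunLike.congr_fun h f

theorem sm_one (f : MvPolynomial (Fin 3) ℂ) : sm 1 f = f := by
  have h : sm 1 = AlgHom.id ℂ (MvPolynomial (Fin 3) ℂ) := by
    apply MvPolynomial.algHom_ext
    intro i
    rw [sm_X, sg_one, map_one, one_mul]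
    rfl
  exact DFunLike.congr_fun h f

theorem sm_inj (ε : Sg) : Function.Injective (sm ε) := by
  intro f g h
  have h2 := congrArg (sm ε⁻¹) h
  rwa [sm_sm, sm_sm, inv_mul_cancel, sm_one, sm_one] at h2

theorem sm_expand (ε : Sg) (f : MvPolynomial (Fin 3) ℂ) : sm ε (expand 2 f) = expand 2 f := by
  have h : (sm ε).comp (expand 2) = (expand 2 : MvPolynomial (Fin 3) ℂ →ₐ[ℂ] _) := by
    apply MvPolynomial.algHom_ext
    intro i
    rw [AlgHom.comp_apply, expand_X, map_pow, sm_X, mul_pow, ← map_pow, sg_sq, map_one, one_mul]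
  exact DFunLike.congr_fun h f

theorem sm_monomial (ε : Sg) (m : Fin 3 →₀ ℕ) (c : ℂ) :
    sm ε (monomial m c) = monomial m ((∏ i, sg ε i ^ m i) * c) := by
  rw [monomial_eq, map_mul, ← MvPolynomial.algebraMap_eq, AlgHom.commutes, map_finsuppProd]
  have h1 : (m.prod fun i k => sm ε (X i ^ k)) =
      C (∏ i, sg ε i ^ m i) * m.prod fun i k => (X i : MvPolynomial (Fin 3) ℂ) ^ k := by
    rw [Finsupp.prod_fintype _ _ (by intro i; simp), Finsupp.prod_fintype _ _ (by intro i; simp),
      map_prod, ← Finset.prod_mul_distrib]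
    refine Finset.prod_congr rfl fun i _ => ?_
    rw [map_pow, sm_X, mul_pow, map_pow]
  rw [h1, monomial_eq (s := m), MvPolynomial.algebraMap_eq, map_mul]
  ring

theorem sm_coeff (ε : Sg) (m : Fin 3 →₀ ℕ) (f : MvPolynomial (Fin 3) ℂ) :
    coeff m (sm ε f) = (∏ i, sg ε i ^ m i) * coeff m f := by
  classical
  induction f using MvPolynomial.induction_on' with
  | monomial u a =>
    rw [sm_monomial, coeff_monomial, coeff_monomial]
    split_ifs with h
    · rw [h]
    · simp
  | add p q hp hq => rw [map_add, coeff_add, coeff_add, hp, hq, mul_add]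

/-- An invariant form of even degree is a polynomial in the squares. -/
theorem exists_expand {N : MvPolynomial (Fin 3) ℂ} {k : ℕ} (hN : N.IsHomogeneous (2 * k))
    (h : ∀ ε, sm ε N = N) : ∃ P : MvPolynomial (Fin 3) ℂ, N = expand 2 P := by
  classical
  have heven : ∀ m ∈ N.support, ∀ i, Even (m i) := by
    intro m hm
    have hc : coeff m N ≠ 0 := mem_support_iff.1 hm
    have h0 : Even (m 0) := by
      by_contra ho
      rw [Nat.not_even_iff_odd] at ho
      have h1 := sm_coeff (-1, 1) m N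
      rw [h] at h1
      have h2 : (∏ i, sg (-1, 1) i ^ m i) = -1 := by
        rw [Fin.prod_univ_three]
        simp [sg, ho.neg_one_pow]
      rw [h2] at h1
      apply hc
      have h3 : (2 : ℂ) * coeff m N = 0 := by linear_combination h1
      simpa using h3
    have h1 : Even (m 1) := by
      by_contra ho
      rw [Nat.not_even_iff_odd] at ho
      have h1 := sm_coeff (1, -1) m N
      rw [h] at h1
      have h2 : (∏ i, sg (1, -1) i ^ m i) = -1 := by
        rw [Fin.prod_univ_three]
        simp [sg, ho.neg_one_pow]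
      rw [h2] at h1
      apply hc
      have h3 : (2 : ℂ) * coeff m N = 0 := by linear_combination h1
      simpa using h3
    have hd : m 0 + m 1 + m 2 = 2 * k := by
      by_contra hne
      apply hc
      apply hN.coeff_eq_zero
      rw [Finsupp.degree_eq_sum, Fin.sum_univ_three]
      exact hne
    have h2 : Even (m 2) := by
      rw [Nat.even_iff] at *
      omega
    intro i
    fin_cases i
    · exact h0
    · exact h1
    · exact h2
  refine ⟨∑ m ∈ N.support, monomial (Finsupp.mapRange (fun x => x / 2) (by norm_num) m)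
    (coeff m N), ?_⟩
  rw [map_sum]
  conv_lhs => rw [N.as_sum]
  refine Finset.sum_congr rfl fun m hm => ?_
  rw [expand_monomial]
  have hm2 : 2 • Finsupp.mapRange (fun x => x / 2) (by norm_num) m = m := by
    ext i
    rw [Finsupp.smul_apply, Finsupp.mapRange_apply, smul_eq_mul]
    obtain ⟨x, hx⟩ := heven m hm i
    rw [hx]
    omega
  rw [hm2]

theorem expand_hom {Q : MvPolynomial (Fin 3) ℂ} {q : ℕ} (hQ : Q.IsHomogeneous q) :
    (expand 2 Q).IsHomogeneous (2 * q) := by
  have h : (expand 2 Q) = aeval (fun i : Fin 3 => (X i : MvPolynomial (Fin 3) ℂ) ^ 2) Q := rfl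
  rw [h]
  refine hQ.aeval _ fun i => ?_
  have := (isHomogeneous_X ℂ i).pow 2
  simpa using this

/-- Divisibility descends. -/
theorem dvd_of_expand_dvd {B Q : MvPolynomial (Fin 3) ℂ} {b q : ℕ} (hB : B.IsHomogeneous b)
    (hQ : Q.IsHomogeneous q) (hQ0 : Q ≠ 0) (h : expand 2 B ∣ expand 2 Q) : B ∣ Q := by
  have hQe : expand 2 Q ≠ 0 := (expand_ne_zero two_pos).2 hQ0
  obtain ⟨T, hT⟩ := h
  have hB0 : B ≠ 0 := by
    rintro rfl
    rw [map_zero, zero_mul] at hT
    exact hQe hT
  have hBe : expand 2 B ≠ 0 := (expand_ne_zero two_pos).2 hB0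
  have hT0 : T ≠ 0 := by
    rintro rfl
    rw [mul_zero] at hT
    exact hQe hT
  have hTh : T.IsHomogeneous T.totalDegree :=
    Pool.Agent.Chud.homog_of_dvd (expand_hom hQ) hQe (Dvd.intro_left _ hT.symm)
  have hd : 2 * q = 2 * b + T.totalDegree := by
    have h1 := (expand_hom hB).mul hTh
    rw [← hT] at h1
    exact (expand_hom hQ).inj_right h1 hQe
  have hTk : T.IsHomogeneous (2 * (q - b)) := by
    have : T.totalDegree = 2 * (q - b) := by omega
    rwa [this] at hTh
  obtain ⟨P, hP⟩ := exists_expand hTk (by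
    intro ε
    have h1 := congrArg (sm ε) hT
    rw [map_mul, sm_expand, sm_expand, hT] at h1
    exact (mul_left_cancel₀ hBe h1).symm)
  refine ⟨P, expand_injective (n := 2) two_pos ?_⟩
  rw [hT, hP, map_mul]

/-- The product of the conjugates of a form. -/
noncomputable def nm (A : MvPolynomial (Fin 3) ℂ) : MvPolynomial (Fin 3) ℂ := ∏ ε : Sg, sm ε A

theorem sm_nm (ε : Sg) (A : MvPolynomial (Fin 3) ℂ) : sm ε (nm A) = nm A := by
  unfold nm
  rw [map_prod]
  refine Fintype.prod_equiv (Equiv.mulLeft ε) _ _ fun η => ?_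
  rw [sm_sm]
  rfl

/-- An irreducible factor of the pull-back of an irreducible form: the pull-back divides the
product of the conjugates. -/
theorem dvd_nm (hlin : P_LIN) {G A : MvPolynomial (Fin 3) ℂ} {e δ : ℕ} (hG : Irreducible G)
    (hGe : G.IsHomogeneous e) (hA : Irreducible A) (hAd : A.IsHomogeneous δ)
    (h : A ∣ expand 2 G) : expand 2 G ∣ nm A := by
  have hsmh : ∀ ε, (sm ε A).IsHomogeneous δ := by
    intro ε
    refine ((hlin ℂ).1 (Matrix.diagonal (sg ε)) ?_).1 A δ hAd
    rw [Matrix.det_diagonal]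
    exact Finset.prod_ne_zero_iff.2 fun i _ => sg_ne ε i
  have hNh : (nm A).IsHomogeneous (2 * (2 * δ)) := by
    unfold nm
    have := IsHomogeneous.prod Finset.univ (fun ε => sm ε A) (fun _ => δ) (fun ε _ => hsmh ε)
    have hc : ∑ _ε : Sg, δ = 2 * (2 * δ) := by
      rw [Finset.sum_const, Finset.card_univ]
      simp [Sg]
      ring
    rwa [hc] at this
  have hN0 : nm A ≠ 0 := by
    unfold nm
    refine Finset.prod_ne_zero_iff.2 fun ε _ h0 => hA.ne_zero ?_
    exact sm_inj ε (by rw [h0, map_zero])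
  obtain ⟨P, hP⟩ := exists_expand hNh (fun ε => sm_nm ε A)
  have hdvd : nm A ∣ (expand 2 G) ^ 4 := by
    have h1 : nm A ∣ ∏ _ε : Sg, expand 2 G := by
      unfold nm
      refine Finset.prod_dvd_prod_of_dvd _ _ fun ε _ => ?_
      have := map_dvd (sm ε) h
      rwa [sm_expand] at this
    have hc : ∏ _ε : Sg, expand 2 G = (expand 2 G) ^ 4 := by
      rw [Finset.prod_const, Finset.card_univ]
      simp [Sg]
    rwa [hc] at h1
  have hP0 : P ≠ 0 := by
    rintro rfl
    rw [map_zero] at hP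
    exact hN0 hP
  have hPh : P.IsHomogeneous (2 * δ) := by
    intro m hm
    have h1 : coeff (2 • m) (nm A) ≠ 0 := by
      rw [hP, coeff_expand_smul _ two_ne_zero]
      exact hm
    have h2 := hNh h1
    rw [map_nsmul, smul_eq_mul] at h2
    omega
  have hPd : P ∣ G ^ 4 := by
    refine dvd_of_expand_dvd hPh (hGe.pow 4) (pow_ne_zero _ hG.ne_zero) ?_
    rw [map_pow, ← hP]
    exact hdvd
  obtain ⟨j, hj, hPj⟩ := (dvd_prime_pow hG.prime 4).1 hPd
  have hj0 : j ≠ 0 := by
    rintro rfl
    rw [pow_zero] at hPj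
    have hPu : IsUnit P := associated_one_iff_isUnit.1 hPj
    have h1 : IsUnit (nm A) := by
      rw [hP]
      exact hPu.map (expand 2)
    have h2 : A ∣ nm A := by
      unfold nm
      have := Finset.dvd_prod_of_mem (fun ε => sm ε A) (Finset.mem_univ (1 : Sg))
      simpa only [sm_one] using this
    exact hA.not_isUnit (isUnit_of_dvd_unit h2 h1)
  have hGP : G ∣ P := (dvd_pow_self G hj0).trans hPj.symm.dvd
  rw [hP]
  exact map_dvd (expand 2) hGP

/-- A divisor of a product of primes. -/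
theorem dvd_prod_primes {R ι : Type} [CommRing R] [IsDomain R] (p : ι → R) (s : Finset ι) :
    (∀ i ∈ s, Prime (p i)) → ∀ G : R, G ∣ ∏ i ∈ s, p i →
      ∃ t : Finset ι, t ⊆ s ∧ Associated G (∏ i ∈ t, p i) := by
  classical
  refine Finset.induction_on s ?_ ?_
  · intro _ G hG
    rw [Finset.prod_empty] at hG
    exact ⟨∅, le_rfl, by rw [Finset.prod_empty]; exact associated_one_iff_isUnit.2 (isUnit_of_dvd_one hG)⟩
  · intro a s ha ih hp G hG
    have hpa := hp a (Finset.mem_insert_self a s)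
    rw [Finset.prod_insert ha] at hG
    by_cases hd : p a ∣ G
    · obtain ⟨G1, rfl⟩ := hd
      have h1 : G1 ∣ ∏ i ∈ s, p i := (mul_dvd_mul_iff_left hpa.ne_zero).1 hG
      obtain ⟨t, ht, hGt⟩ := ih (fun i hi => hp i (Finset.mem_insert_of_mem hi)) G1 h1
      refine ⟨insert a t, Finset.insert_subset_insert a ht, ?_⟩
      rw [Finset.prod_insert (fun h => ha (ht h))]
      exact hGt.mul_left _
    · obtain ⟨H, hH⟩ := hG
      have h1 : p a ∣ G * H := ⟨_, hH.symm⟩
      rcases hpa.dvd_or_dvd h1 with h2 | h2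
      · exact absurd h2 hd
      · obtain ⟨H1, rfl⟩ := h2
        have h3 : G ∣ ∏ i ∈ s, p i := by
          refine ⟨H1, mul_left_cancel₀ hpa.ne_zero ?_⟩
          rw [hH]
          ring
        obtain ⟨t, ht, hGt⟩ := ih (fun i hi => hp i (Finset.mem_insert_of_mem hi)) G h3
        exact ⟨t, ht.trans (Finset.subset_insert a s), hGt⟩

end Pool.Agent.TH415.HB
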