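import Pool.Agent.TH415.HB.Gam

set_option autoImplicit false

/-!
# Negative curves through nine points of the cuspidal cubic
-/

namespace Pool.Agent.TH415.HB

open MvPolynomial Pool.Agent.W609.CR

/-- The multiplicities. -/
def mm (n : ℕ) : Fin 9 → ℕ :=
  ![n ^ 2 - n, n ^ 2 + n, n ^ 2, n ^ 2, n ^ 2, n ^ 2, n ^ 2, n ^ 2, n ^ 2 - 1]

theorem sum_mm {n : ℕ} (_hn : 1 ≤ n) (g : ℕ → ℤ) :
    ∑ i, g (mm n i) = g (n ^ 2 - n) + g (n ^ 2 + n) + 6 * g (n ^ 2) + g (n ^ 2 - 1) := by
  simp only [Fin.sum_univ_succ, mm]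
  simp
  ring

theorem two_ch (x : ℕ) : 2 * ((x + 1).choose 2 : ℤ) = (x : ℤ) * (x + 1) := by
  have h : (x + 1).choose 2 * 2 = (x + 1) * x := by
    rw [Nat.choose_two_right, Nat.add_sub_cancel]
    exact Nat.div_mul_cancel (Nat.even_mul_pred_self (x + 1)).two_dvd
  have h1 : (((x + 1).choose 2 : ℕ) : ℤ) * 2 = ((x : ℤ) + 1) * x := by exact_mod_cast h
  linear_combination h1

theorem exists_form (u : Fin 9 → ℂ) {n : ℕ} (hn : 1 ≤ n) :
    ∃ F : MvPolynomial (Fin 3) ℂ, F ≠ 0 ∧ F.IsHomogeneous (3 * n ^ 2) ∧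
      ∀ i, Van (aff (cv (u i))) (mm n i) F := by
  have h1 := le_dim (K := ℂ) (mm n) (fun i => cv (u i)) (3 * n ^ 2)
  rw [← vs_eq_forms] at h1
  have hle : n ≤ n ^ 2 := by nlinarith
  have hle1 : 1 ≤ n ^ 2 := by nlinarith
  have h2 : 2 * (∑ i, ((mm n i + 1).choose 2 : ℤ)) =
      (∑ i, (mm n i : ℤ) * (mm n i + 1)) := by
    rw [Finset.mul_sum]
    exact Finset.sum_congr rfl fun i _ => two_ch _
  have h3 := sum_mm hn (fun x => (x : ℤ) * (x + 1))
  have h4 := two_ch (3 * n ^ 2 + 1)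
  have h5 : (0 : ℤ) < Module.finrank ℂ ↥(VS (fun j => aff (cv (u j))) (mm n) (3 * n ^ 2)) := by
    have h6 : (((3 * n ^ 2 + 2).choose 2 : ℕ) : ℤ) ≤
        Module.finrank ℂ ↥(VS (fun j => aff (cv (u j))) (mm n) (3 * n ^ 2)) +
          ∑ i, ((mm n i + 1).choose 2 : ℤ) := by exact_mod_cast h1
    rw [← h2] at h3
    push_cast [Nat.cast_sub hle, Nat.cast_sub hle1] at h3 h4 h6 ⊢
    nlinarith
  have h6 : 0 < Module.finrank ℂ ↥(VS (fun j => aff (cv (u j))) (mm n) (3 * n ^ 2)) := by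
    exact_mod_cast h5
  have := vs_fin (K := ℂ) (fun j => aff (cv (u j))) (mm n) (3 * n ^ 2)
  obtain ⟨F, hF⟩ := Module.finrank_pos_iff_exists_ne_zero.1 h6
  have h7 := (mem_VS _ _ _ _).1 F.2
  exact ⟨F.1, fun h => hF (Subtype.ext h), h7.1, h7.2⟩

/-- There are irreducible forms of arbitrarily large degrees with negative self-intersection. -/
theorem exists_curve {u : Fin 9 → ℂ} (hu : LinearIndependent ℚ u) {n : ℕ} (hn : 1 ≤ n) :
    ∃ (e : ℕ) (a : Fin 9 → ℕ) (G : MvPolynomial (Fin 3) ℂ), Irreducible G ∧ G.IsHomogeneous e ∧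
      (∀ i, Van (aff (cv (u i))) (a i) G) ∧ ∑ i, a i + 1 = 3 * e ∧ e ^ 2 < ∑ i, a i ^ 2 ∧
      2 * n ≤ e := by
  obtain ⟨F, hF0, hFh, hFv⟩ := exists_form u hn
  obtain ⟨k, F', hnd, hFF⟩ := WfDvdMonoid.max_power_factor hF0 gam_irr
  have hle : n ≤ n ^ 2 := by nlinarith
  have hle1 : 1 ≤ n ^ 2 := by nlinarith
  have hF'0 : F' ≠ 0 := by
    rintro rfl
    exact hnd (dvd_zero _)
  have hF'h : F'.IsHomogeneous F'.totalDegree :=
    Pool.Agent.Chud.homog_of_dvd hFh hF0 (Dvd.intro_left _ hFF.symm)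
  set e := F'.totalDegree with he
  have hdeg : 3 * n ^ 2 = 3 * k + e := by
    have h1 := (gam_hom.pow k).mul hF'h
    rw [← hFF] at h1
    exact hFh.inj_right h1 hF0
  choose a ha using fun i => exists_ord hF'h hF'0 (cv (u i))
  have hak : ∀ i, mm n i ≤ a i + k := by
    intro i
    have h1 := (van_iff _ _ _).1 (hFv i)
    have hpow : ∀ k : ℕ, od (aff (cv (u i))) (gam ^ k) = (k : ℕ∞) := by
      intro k
      induction k with
      | zero =>
        rw [pow_zero]
        have : Ord (aff (cv (u i))) 0 (1 : MvPolynomial (Fin 3) ℂ) := by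
          refine ⟨van_zero _ _, ?_⟩
          rw [zero_add, van_one]
          simp
        rw [ord_iff] at this
        exact this
      | succ k ih =>
        rw [pow_succ, od_mul, ih, gam_ord]
        push_cast
        rfl
    have h2 := (ord_iff _ _ _).1 (ha i)
    rw [hFF, od_mul, hpow, h2] at h1
    have h3 : mm n i ≤ k + a i := by exact_mod_cast h1
    omega
  have hsum : ∑ i, mm n i + 1 = 9 * n ^ 2 := by
    have h1 := sum_mm hn (fun x => (x : ℤ))
    push_cast [Nat.cast_sub hle, Nat.cast_sub hle1] at h1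
    have h2 : (((∑ i, mm n i + 1 : ℕ)) : ℤ) = ((9 * n ^ 2 : ℕ) : ℤ) := by
      push_cast
      rw [h1]
      ring
    exact_mod_cast h2
  have hsum2 : ∑ i, mm n i ≤ ∑ i, a i + 9 * k := by
    have h1 := Finset.sum_le_sum fun i (_ : i ∈ Finset.univ) => hak i
    rw [Finset.sum_add_distrib] at h1
    simpa using h1
  have hle_e : ∀ i, a i ≤ e := fun i => van_le hF'0 hF'h (ha i).1
  have he1 : 1 ≤ e := by
    by_contra h
    have h0 : e = 0 := by omega
    have h1 := hak 1
    have h2 := hle_e 1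
    have h3 : mm n 1 = n ^ 2 + n := rfl
    omega
  have hrho : ∀ (B : MvPolynomial (Fin 3) ℂ) (b : ℕ), B.IsHomogeneous b → B ∣ F' → rho B ≠ 0 := by
    intro B b hB hBF h
    exact hnd ((gam_dvd hB h).trans hBF)
  have hup := sum_le hu he1 hF'h (hrho F' e hF'h dvd_rfl) (fun i => (ha i).1)
  have hsa : ∑ i, a i + 1 = 3 * e := by omega
  have hirr : Irreducible F' := by
    refine ⟨fun hunit => ?_, fun A B hAB => ?_⟩
    · obtain ⟨c, _, hc⟩ := MvPolynomial.isUnit_iff_eq_C_of_isReduced.1 hunit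
      have : e = 0 := by rw [he, hc, totalDegree_C]
      omega
    · have hAF : A ∣ F' := ⟨B, hAB⟩
      have hBF : B ∣ F' := ⟨A, by rw [hAB, mul_comm]⟩
      have hA0 : A ≠ 0 := by
        rintro rfl
        exact hF'0 (by rw [hAB, zero_mul])
      have hB0 : B ≠ 0 := by
        rintro rfl
        exact hF'0 (by rw [hAB, mul_zero])
      have hAh := Pool.Agent.Chud.homog_of_dvd hF'h hF'0 hAF
      have hBh := Pool.Agent.Chud.homog_of_dvd hF'h hF'0 hBF
      have hunit : ∀ D : MvPolynomial (Fin 3) ℂ, D ≠ 0 → D.totalDegree = 0 → IsUnit D := by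
        intro D hD0 hD
        rw [MvPolynomial.totalDegree_eq_zero_iff_eq_C] at hD
        rw [hD]
        refine (isUnit_iff_ne_zero.2 fun h => hD0 ?_).map MvPolynomial.C
        rw [hD, h, map_zero]
      by_cases hA1 : A.totalDegree = 0
      · exact Or.inl (hunit A hA0 hA1)
      by_cases hB1 : B.totalDegree = 0
      · exact Or.inr (hunit B hB0 hB1)
      exfalso
      choose α hα using fun i => exists_ord hAh hA0 (cv (u i))
      choose β hβ using fun i => exists_ord hBh hB0 (cv (u i))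
      have h1 := sum_le hu (by omega) hAh (hrho A _ hAh hAF) (fun i => (hα i).1)
      have h2 := sum_le hu (by omega) hBh (hrho B _ hBh hBF) (fun i => (hβ i).1)
      have h3 : ∀ i, a i = α i + β i := by
        intro i
        have := ord_mul (hα i) (hβ i)
        rw [← hAB] at this
        exact ord_unique (ha i) this
      have h4 : ∑ i, a i = ∑ i, α i + ∑ i, β i := by
        rw [← Finset.sum_add_distrib]
        exact Finset.sum_congr rfl fun i _ => h3 i
      have h5 : e = A.totalDegree + B.totalDegree := by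
        have h6 := hAh.mul hBh
        rw [← hAB] at h6
        exact hF'h.inj_right h6 hF'0
      omega
  have heq : ∀ i, mm n i = a i + k := by
    have h1 : ∑ i, mm n i = ∑ i, (a i + k) := by
      rw [Finset.sum_add_distrib]
      have : ∑ _i : Fin 9, k = 9 * k := by simp
      omega
    have h2 := (Finset.sum_eq_sum_iff_of_le (fun i _ => hak i)).1 h1
    exact fun i => h2 i (Finset.mem_univ i)
  refine ⟨e, a, F', hirr, hF'h, fun i => (ha i).1, hsa, ?_, ?_⟩
  · have h1 := sum_mm hn (fun x => ((x : ℤ) - k) ^ 2)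
    have h2 : ∑ i, ((mm n i : ℤ) - k) ^ 2 = ∑ i, (a i : ℤ) ^ 2 := by
      refine Finset.sum_congr rfl fun i _ => ?_
      rw [heq i]
      push_cast
      ring
    rw [h2] at h1
    push_cast [Nat.cast_sub hle, Nat.cast_sub hle1] at h1
    have h3 : (e : ℤ) = 3 * (n : ℤ) ^ 2 - 3 * k := by
      have : (3 * (n : ℤ) ^ 2) = 3 * k + e := by exact_mod_cast hdeg
      linarith
    have h4 : (e : ℤ) ^ 2 < ∑ i, (a i : ℤ) ^ 2 := by
      rw [h1, h3]
      nlinarith
    exact_mod_cast h4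
  · have h0 : mm n 0 = n ^ 2 - n := rfl
    have h1 : mm n 1 = n ^ 2 + n := rfl
    have h2 := heq 0
    have h3 := heq 1
    have h4 := hle_e 1
    omega

end Pool.Agent.TH415.HB
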