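import Pool.Agent.TH415.HB.Base

set_option autoImplicit false

/-!
# The cuspidal cubic
-/

namespace Pool.Agent.TH415.HB

open MvPolynomial Pool.Agent.W609.CR

/-- The cuspidal cubic `y z^2 = x^3`. -/
noncomputable def gam : MvPolynomial (Fin 3) ℂ := X 2 ^ 2 * X 1 + (- X 0 ^ 3)

theorem gam_hom : gam.IsHomogeneous 3 := by
  unfold gam
  refine IsHomogeneous.add ?_ ?_
  · have := ((isHomogeneous_X ℂ (2 : Fin 3)).pow 2).mul (isHomogeneous_X ℂ (1 : Fin 3))
    simpa using this
  · have := ((isHomogeneous_X ℂ (0 : Fin 3)).pow 3).neg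
    simpa using this

theorem gam_irr : Irreducible gam := by
  unfold gam
  refine irreducible_mul_X_add _ _ 1 (pow_ne_zero _ (X_ne_zero _)) ?_ ?_ ?_
  · intro h
    have h1 := vars_pow (X 2 : MvPolynomial (Fin 3) ℂ) 2 h
    rw [vars_X] at h1
    simp at h1
  · intro h
    rw [vars_neg] at h
    have h1 := vars_pow (X 0 : MvPolynomial (Fin 3) ℂ) 3 h
    rw [vars_X] at h1
    simp at h1
  · have hX : Irreducible (X 2 : MvPolynomial (Fin 3) ℂ) := MvPolynomial.X_prime.irreducible
    have h1 : IsRelPrime (X 2 : MvPolynomial (Fin 3) ℂ) (X 0) := by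
      rw [hX.isRelPrime_iff_not_dvd]
      intro h
      rw [X_dvd_X] at h
      exact absurd h (by decide)
    exact (h1.pow).neg_right

/-- The points of the cubic. -/
noncomputable def cv (u : ℂ) : Fin 2 → ℂ := ![u, u ^ 3]

/-- The restriction to the cubic. -/
noncomputable def rho : MvPolynomial (Fin 3) ℂ →ₐ[ℂ] Polynomial ℂ :=
  aeval (![Polynomial.X, Polynomial.X ^ 3, 1] : Fin 3 → Polynomial ℂ)

theorem eval_rho (u : ℂ) (f : MvPolynomial (Fin 3) ℂ) :
    Polynomial.eval u (rho f) = MvPolynomial.eval (aff (cv u)) f := by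
  have h : ((Polynomial.aeval u).comp rho : MvPolynomial (Fin 3) ℂ →ₐ[ℂ] ℂ) =
      MvPolynomial.aeval (aff (cv u)) := by
    apply MvPolynomial.algHom_ext
    intro i
    rw [AlgHom.comp_apply]
    unfold rho
    rw [aeval_X, aeval_X]
    fin_cases i <;> simp [aff, cv]
  have h1 := DFunLike.congr_fun h f
  rw [AlgHom.comp_apply, Polynomial.coe_aeval_eq_eval] at h1
  rw [h1, MvPolynomial.aeval_eq_eval]

theorem gam_van (u : ℂ) : Van (aff (cv u)) 1 gam := by
  rw [van_one]
  simp [gam, aff, cv]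

theorem gam_not (u : ℂ) : ¬ Van (aff (cv u)) 2 gam := by
  intro h
  have h1 := pd_mem h 1
  unfold gam at h1
  simp [Derivation.leibniz, pderiv_X, aff] at h1

theorem gam_ord (u : ℂ) : od (aff (cv u)) gam = 1 := by
  have h : Ord (aff (cv u)) 1 gam := ⟨gam_van u, gam_not u⟩
  rw [ord_iff] at h
  exact_mod_cast h

theorem dvd_rho {u : ℂ} {m : ℕ} {f : MvPolynomial (Fin 3) ℂ} (h : Van (aff (cv u)) m f) :
    (Polynomial.X - Polynomial.C u) ^ m ∣ rho f := by
  unfold Van at h
  have h1 : rho f ∈ Ideal.map rho ((RingHom.ker (MvPolynomial.eval (aff (cv u)))) ^ m) :=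
    Ideal.mem_map_of_mem _ h
  rw [Ideal.map_pow] at h1
  have h2 : Ideal.map rho (RingHom.ker (MvPolynomial.eval (aff (cv u)))) ≤
      Ideal.span {Polynomial.X - Polynomial.C u} := by
    rw [Ideal.map_le_iff_le_comap]
    intro g hg
    rw [RingHom.mem_ker] at hg
    rw [Ideal.mem_comap, Ideal.mem_span_singleton, Polynomial.dvd_iff_isRoot, Polynomial.IsRoot.def]
    have := eval_rho u g
    rw [hg] at this
    exact this
  have h3 := Ideal.pow_right_mono h2 m h1
  rw [Ideal.span_singleton_pow, Ideal.mem_span_singleton] at h3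
  exact h3

theorem rho_monomial (m : Fin 3 →₀ ℕ) (c : ℂ) :
    rho (monomial m c) = Polynomial.C c * Polynomial.X ^ (m 0 + 3 * m 1) := by
  unfold rho
  rw [aeval_monomial, Finsupp.prod_fintype _ _ (by intro i; simp), Fin.prod_univ_three,
    Polynomial.algebraMap_eq]
  simp only [Matrix.cons_val_zero, Matrix.cons_val_one, Matrix.cons_val, one_pow, mul_one]
  rw [← pow_mul, ← pow_add]

theorem rho_coeff {f : MvPolynomial (Fin 3) ℂ} {e : ℕ} (hf : f.IsHomogeneous e) (j : ℕ)
    (hj : 3 * e < j ∨ (1 ≤ e ∧ j = 3 * e - 1)) : (rho f).coeff j = 0 := by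
  classical
  rw [f.as_sum, map_sum, Polynomial.finsetSum_coeff]
  refine Finset.sum_eq_zero fun m hm => ?_
  rw [rho_monomial, Polynomial.coeff_C_mul, Polynomial.coeff_X_pow]
  have hd : m 0 + m 1 + m 2 = e := by
    by_contra hne
    apply mem_support_iff.1 hm
    apply hf.coeff_eq_zero
    rw [Finsupp.degree_eq_sum, Fin.sum_univ_three]
    exact hne
  rw [if_neg (by omega), mul_zero]

theorem rho_natDegree {f : MvPolynomial (Fin 3) ℂ} {e : ℕ} (hf : f.IsHomogeneous e) :
    (rho f).natDegree ≤ 3 * e := by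
  rw [Polynomial.natDegree_le_iff_coeff_eq_zero]
  intro j hj
  exact rho_coeff hf j (Or.inl hj)

/-- The key inequality: the points are independent on the cubic. -/
theorem sum_le {s : ℕ} {u : Fin s → ℂ} (hu : LinearIndependent ℚ u) {f : MvPolynomial (Fin 3) ℂ}
    {e : ℕ} (he : 1 ≤ e) (hf : f.IsHomogeneous e) (h0 : rho f ≠ 0) {a : Fin s → ℕ}
    (ha : ∀ i, Van (aff (cv (u i))) (a i) f) : ∑ i, a i + 1 ≤ 3 * e := by
  classical
  have hinj : Function.Injective u := hu.injective
  set Q : Polynomial ℂ := ∏ i, (Polynomial.X - Polynomial.C (u i)) ^ a i with hQ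
  have hdvd : Q ∣ rho f := by
    refine Finset.prod_dvd_of_coprime ?_ fun i _ => dvd_rho (ha i)
    intro i _ j _ hij
    exact (Polynomial.isCoprime_X_sub_C_of_isUnit_sub
      (sub_ne_zero.2 (hinj.ne hij)).isUnit).pow
  have hm : ∀ i, ((Polynomial.X - Polynomial.C (u i)) ^ a i : Polynomial ℂ).Monic := fun i =>
    (Polynomial.monic_X_sub_C _).pow _
  have hQm : Q.Monic := Polynomial.monic_prod_of_monic _ _ fun i _ => hm i
  have hQd : Q.natDegree = ∑ i, a i := by
    rw [hQ, Polynomial.natDegree_prod_of_monic _ _ fun i _ => hm i]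
    refine Finset.sum_congr rfl fun i _ => ?_
    rw [Polynomial.natDegree_pow, Polynomial.natDegree_X_sub_C, mul_one]
  have h1 := Polynomial.natDegree_le_of_dvd hdvd h0
  have h2 := rho_natDegree hf
  by_contra hlt
  have h3 : ∑ i, a i = 3 * e := by omega
  obtain ⟨R, hR⟩ := hdvd
  have hR0 : R ≠ 0 := by
    rintro rfl
    rw [mul_zero] at hR
    exact h0 hR
  have h4 : (rho f).natDegree = Q.natDegree + R.natDegree := by
    rw [hR, Polynomial.natDegree_mul hQm.ne_zero hR0]
  have h5 : R.natDegree = 0 := by omega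
  rw [Polynomial.natDegree_eq_zero] at h5
  obtain ⟨c, hc⟩ := h5
  have hc0 : c ≠ 0 := by
    rintro rfl
    rw [map_zero] at hc
    exact hR0 hc.symm
  have h6 := rho_coeff hf (3 * e - 1) (Or.inr ⟨he, rfl⟩)
  rw [hR, ← hc, Polynomial.coeff_mul_C] at h6
  have h7 : Q.coeff (3 * e - 1) = 0 := (mul_eq_zero.1 h6).resolve_right hc0
  have h8 : Q.nextCoeff = 0 := by
    rw [Polynomial.nextCoeff_of_natDegree_pos (by omega), hQd, h3]
    exact h7
  have h9 : Q.nextCoeff = ∑ i, (a i : ℂ) * (-(u i)) := by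
    rw [hQ, Polynomial.Monic.nextCoeff_prod _ _ fun i _ => hm i]
    refine Finset.sum_congr rfl fun i _ => ?_
    rw [(Polynomial.monic_X_sub_C (u i)).nextCoeff_pow, Polynomial.nextCoeff_X_sub_C, nsmul_eq_mul]
  rw [h8] at h9
  have h10 : ∑ i, (a i : ℚ) • u i = 0 := by
    have : ∑ i, (a i : ℚ) • u i = - ∑ i, (a i : ℂ) * (-(u i)) := by
      rw [← Finset.sum_neg_distrib]
      refine Finset.sum_congr rfl fun i _ => ?_
      rw [Rat.smul_def]
      push_cast
      ring
    rw [this, ← h9, neg_zero]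
  have h11 := Fintype.linearIndependent_iff.1 hu (fun i => (a i : ℚ)) h10
  have h12 : ∑ i, a i = 0 := Finset.sum_eq_zero fun i _ => by exact_mod_cast h11 i
  omega

/-- A form which vanishes on the cubic is divisible by its equation. -/
theorem gam_dvd {f : MvPolynomial (Fin 3) ℂ} {e : ℕ} (hf : f.IsHomogeneous e) (h : rho f = 0) :
    gam ∣ f := by
  by_contra hnd
  have hf0 : f ≠ 0 := by
    rintro rfl
    exact hnd (dvd_zero _)
  let P : Fin (3 * e + 1) → Fin 2 → ℂ := fun j => cv ((j : ℕ) : ℂ)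
  have hP : Function.Injective P := by
    intro i j hij
    have h1 : (((i : ℕ) : ℂ)) = ((j : ℕ) : ℂ) := by
      have := congrFun hij 0
      simpa [P, cv] using this
    exact Fin.ext (by exact_mod_cast h1)
  have hb := bez hP gam_irr gam_hom (u := fun _ => 1) (w := fun _ => 1) (fun j => gam_van _) hf0 hf
    (fun j => by
      rw [van_one, ← eval_rho, h, Polynomial.eval_zero]) hnd
  simp at hb

/-- The exact order. -/
theorem exists_ord {f : MvPolynomial (Fin 3) ℂ} {e : ℕ} (hf : f.IsHomogeneous e) (hf0 : f ≠ 0)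
    (a : Fin 2 → ℂ) : ∃ m, Ord (aff a) m f := by
  have h1 : od (aff a) f ≠ ⊤ := by
    intro h
    have h2 : Van (aff a) (e + 1) f := by
      rw [van_iff, h]
      exact le_top
    have h3 := van_le hf0 hf h2
    omega
  obtain ⟨m, hm⟩ := ENat.ne_top_iff_exists.1 h1
  exact ⟨m, by rw [ord_iff, hm]⟩

end Pool.Agent.TH415.HB
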