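import Pool.Agent.TH415.HB.Crv
import Pool.Agent.TH415.HB.Cov

set_option autoImplicit false

/-!
# Negative curves on the cover
-/

namespace Pool.Agent.TH415.HB

open MvPolynomial Pool.Agent.W609.CR

/-- The 36 points. -/
noncomputable def qp (s : Fin 9 → ℂ) : Fin 9 × Sg → Fin 2 → ℂ := fun q =>
  ![sg q.2 0 * s q.1, sg q.2 1 * s q.1 ^ 3]

theorem unit_inj {a b : ℤˣ} (h : (((a : ℤˣ) : ℤ) : ℂ) = (((b : ℤˣ) : ℤ) : ℂ)) : a = b :=
  Units.ext (by exact_mod_cast h)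

theorem qp_inj {s : Fin 9 → ℂ} (hs : LinearIndependent ℚ (fun i => s i ^ 2)) :
    Function.Injective (qp s) := by
  rintro ⟨i, ε⟩ ⟨j, η⟩ h
  have h0 : sg ε 0 * s i = sg η 0 * s j := congrFun h 0
  have h1 : sg ε 1 * s i ^ 3 = sg η 1 * s j ^ 3 := congrFun h 1
  have hij : i = j := by
    apply hs.injective
    have h2 := congrArg (fun x => x ^ 2) h0
    simp only [mul_pow, sg_sq, one_mul] at h2
    exact h2
  subst hij
  have hne : s i ≠ 0 := by
    intro hz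
    apply hs.ne_zero i
    simp [hz]
  have h2 : sg ε 0 = sg η 0 := mul_right_cancel₀ hne h0
  have h3 : sg ε 1 = sg η 1 := mul_right_cancel₀ (pow_ne_zero 3 hne) h1
  have h4 : ε = η := Prod.ext (unit_inj h2) (unit_inj h3)
  rw [h4]

theorem aff_qp (s : Fin 9 → ℂ) (i : Fin 9) (ε η : Sg) :
    (Matrix.diagonal (sg ε)).mulVec (aff (qp s (i, η))) = aff (qp s (i, ε * η)) := by
  funext l
  rw [Matrix.mulVec_diagonal]
  fin_cases l
  · show sg ε 0 * (sg η 0 * s i) = sg (ε * η) 0 * s i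
    rw [sg_mul]
    ring
  · show sg ε 1 * (sg η 1 * s i ^ 3) = sg (ε * η) 1 * s i ^ 3
    rw [sg_mul]
    ring
  · show sg ε 2 * 1 = 1
    simp [sg]

theorem sm_facts (ε : Sg) :
    (∀ (f : MvPolynomial (Fin 3) ℂ) (d : ℕ), f.IsHomogeneous d → (sm ε f).IsHomogeneous d) ∧
    (∀ f : MvPolynomial (Fin 3) ℂ, Irreducible f → Irreducible (sm ε f)) ∧
    (∀ (v : Fin 3 → ℂ) (m : ℕ) (f : MvPolynomial (Fin 3) ℂ),
      Van ((Matrix.diagonal (sg ε)).mulVec v) m f ↔ Van v m (sm ε f)) := by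
  have h := (t_lin ℂ).1 (Matrix.diagonal (sg ε)) (by
    rw [Matrix.det_diagonal]
    exact Finset.prod_ne_zero_iff.2 fun i _ => sg_ne ε i)
  exact ⟨h.1, h.2.1, h.2.2.1⟩

theorem sm_od (ε : Sg) (s : Fin 9 → ℂ) (i : Fin 9) (η : Sg) {f : MvPolynomial (Fin 3) ℂ} {b : ℕ}
    (h : Ord (aff (qp s (i, ε * η))) b f) : od (aff (qp s (i, η))) (sm ε f) = b := by
  rw [← ord_iff]
  rw [← aff_qp] at h
  exact ⟨((sm_facts ε).2.2 _ _ _).1 h.1, fun h2 => h.2 (((sm_facts ε).2.2 _ _ _).2 h2)⟩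

theorem expand_van {s : Fin 9 → ℂ} {i : Fin 9} {m : ℕ} {G : MvPolynomial (Fin 3) ℂ}
    (h : Van (aff (cv (s i ^ 2))) m G) (η : Sg) : Van (aff (qp s (i, η))) m (expand 2 G) := by
  unfold Van at *
  have hv : aff (cv (s i ^ 2)) = (aff (qp s (i, η))) ^ 2 := by
    funext l
    rw [Pi.pow_apply]
    fin_cases l
    · show s i ^ 2 = (sg η 0 * s i) ^ 2
      rw [mul_pow, sg_sq, one_mul]
    · show (s i ^ 2) ^ 3 = (sg η 1 * s i ^ 3) ^ 2
      rw [mul_pow, sg_sq, one_mul]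
      ring
    · show (1 : ℂ) = 1 ^ 2
      norm_num
  have h1 : expand 2 G ∈ Ideal.map (expand 2 : MvPolynomial (Fin 3) ℂ →ₐ[ℂ] _)
      ((RingHom.ker (MvPolynomial.eval (aff (cv (s i ^ 2))))) ^ m) := Ideal.mem_map_of_mem _ h
  rw [Ideal.map_pow] at h1
  refine Ideal.pow_right_mono ?_ m h1
  rw [Ideal.map_le_iff_le_comap]
  intro g hg
  rw [RingHom.mem_ker] at hg
  rw [Ideal.mem_comap, RingHom.mem_ker, eval_expand, ← hv]
  exact hg

theorem od_le_of_dvd {v : Fin 3 → ℂ} {f g : MvPolynomial (Fin 3) ℂ} (h : f ∣ g) :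
    od v f ≤ od v g := by
  obtain ⟨k, rfl⟩ := h
  rw [od_mul]
  exact le_self_add

theorem od_prod {ι : Type} (v : Fin 3 → ℂ) (f : ι → MvPolynomial (Fin 3) ℂ) (b : ι → ℕ)
    (t : Finset ι) (h : ∀ i ∈ t, od v (f i) = b i) :
    od v (∏ i ∈ t, f i) = ((∑ i ∈ t, b i : ℕ) : ℕ∞) := by
  classical
  induction t using Finset.induction_on with
  | empty =>
    rw [Finset.prod_empty, Finset.sum_empty]
    have : Ord v 0 (1 : MvPolynomial (Fin 3) ℂ) := by
      refine ⟨van_zero _ _, ?_⟩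
      rw [zero_add, van_one]
      simp
    rw [ord_iff] at this
    exact this
  | insert a t ha ih =>
    rw [Finset.prod_insert ha, Finset.sum_insert ha, od_mul,
      ih (fun i hi => h i (Finset.mem_insert_of_mem hi)), h a (Finset.mem_insert_self a t)]
    push_cast
    rfl

/-- The numerical data of an irreducible component of the pull-back. -/
theorem exists_comp {s : Fin 9 → ℂ} (hs : LinearIndependent ℚ (fun i => s i ^ 2)) {n : ℕ}
    (hn : 1 ≤ n) : ∃ (δ : ℕ) (b : Fin 9 × Sg → ℕ) (A : MvPolynomial (Fin 3) ℂ), Irreducible A ∧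
      A.IsHomogeneous δ ∧ (∀ q, Ord (aff (qp s q)) (b q) A) ∧ δ ^ 2 < ∑ q, b q ^ 2 ∧
      3 * δ + n ≤ ∑ q, b q := by
  classical
  obtain ⟨e, a, G, hG, hGe, hGa, hsum, hneg, hen⟩ := exists_curve hs hn
  have hGX : expand 2 G ≠ 0 := (expand_ne_zero two_pos).2 hG.ne_zero
  have hGXh := expand_hom hGe
  have hGu : ¬ IsUnit (expand 2 G) := by
    intro hu
    obtain ⟨c, _, hc⟩ := MvPolynomial.isUnit_iff_eq_C_of_isReduced.1 hu
    have h1 := hGXh.totalDegree hGX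
    rw [hc, totalDegree_C] at h1
    omega
  obtain ⟨A, hA, hAG⟩ := WfDvdMonoid.exists_irreducible_factor hGu hGX
  have hAh := Pool.Agent.Chud.homog_of_dvd hGXh hGX hAG
  set δ := A.totalDegree with hδ
  choose b hb using fun q => exists_ord hAh hA.ne_zero (qp s q)
  obtain ⟨t, -, ht⟩ := dvd_prod_primes (fun ε => sm ε A) Finset.univ
    (fun ε _ => ((sm_facts ε).2.1 A hA).prime) (expand 2 G)
    (dvd_nm t_lin hG hGe hA hAh hAG)
  -- degrees
  have hdeg : 2 * e = t.card * δ := by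
    have h1 : (∏ ε ∈ t, sm ε A).IsHomogeneous (∑ _ε ∈ t, δ) :=
      IsHomogeneous.prod _ _ _ fun ε _ => (sm_facts ε).1 A δ hAh
    have h2 : (∏ ε ∈ t, sm ε A) ≠ 0 := fun h => hGX (ht.eq_zero_iff.2 h)
    have h3 : (expand 2 G).totalDegree = (∏ ε ∈ t, sm ε A).totalDegree := by
      obtain ⟨u, hu⟩ := ht
      obtain ⟨c, hc, hcu⟩ := MvPolynomial.isUnit_iff_eq_C_of_isReduced.1 u.isUnit
      rw [← hu, hcu, totalDegree_mul_of_isDomain hGX, totalDegree_C, add_zero]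
      intro h0
      rw [← hcu] at h0
      exact u.ne_zero h0
    rw [h1.totalDegree h2, hGXh.totalDegree hGX, Finset.sum_const, smul_eq_mul] at h3
    exact h3
  have hcard : t.card ≤ 4 := by
    have := Finset.card_le_univ t
    simpa [Sg] using this
  -- multiplicities
  have hmul : ∀ i η, a i ≤ ∑ ε ∈ t, b (i, ε * η) := by
    intro i η
    have h1 := (van_iff _ _ _).1 (expand_van (hGa i) η)
    have h2 := od_le_of_dvd (v := aff (qp s (i, η))) ht.dvd
    rw [od_prod (aff (qp s (i, η))) (fun ε => sm ε A) (fun ε => b (i, ε * η)) t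
      (fun ε _ => sm_od ε s i η (hb (i, ε * η)))] at h2
    exact_mod_cast h1.trans h2
  set B : Fin 9 → ℕ := fun i => ∑ η : Sg, b (i, η) with hB
  have hBa : ∀ i, 4 * a i ≤ t.card * B i := by
    intro i
    have h1 : ∑ _η : Sg, a i ≤ ∑ η : Sg, ∑ ε ∈ t, b (i, ε * η) :=
      Finset.sum_le_sum fun η _ => hmul i η
    rw [Finset.sum_comm] at h1
    have h2 : ∀ ε ∈ t, ∑ η : Sg, b (i, ε * η) = B i := by
      intro ε _
      exact Fintype.sum_equiv (Equiv.mulLeft ε) _ _ fun η => rfl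
    rw [Finset.sum_congr rfl h2, Finset.sum_const, Finset.sum_const, Finset.card_univ] at h1
    simpa [Sg] using h1
  have hsq : ∀ i, B i ^ 2 ≤ 4 * ∑ η : Sg, b (i, η) ^ 2 := by
    intro i
    have := sq_sum_le_card_mul_sum_sq (s := (Finset.univ : Finset Sg)) (f := fun η => b (i, η))
    simpa [Sg] using this
  have hsum_q : ∀ g : ℕ → ℕ, ∑ q, g (b q) = ∑ i, ∑ η : Sg, g (b (i, η)) := fun g =>
    Fintype.sum_prod_type _
  refine ⟨δ, b, A, hA, hAh, hb, ?_, ?_⟩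
  · have h1 : ∑ i, B i ^ 2 ≤ 4 * ∑ q, b q ^ 2 := by
      rw [hsum_q (fun x => x ^ 2), Finset.mul_sum]
      exact Finset.sum_le_sum fun i _ => hsq i
    have h2 : 16 * ∑ i, a i ^ 2 ≤ t.card ^ 2 * ∑ i, B i ^ 2 := by
      rw [Finset.mul_sum, Finset.mul_sum]
      refine Finset.sum_le_sum fun i _ => ?_
      have := Nat.pow_le_pow_left (hBa i) 2
      calc 16 * a i ^ 2 = (4 * a i) ^ 2 := by ring
        _ ≤ (t.card * B i) ^ 2 := this
        _ = t.card ^ 2 * B i ^ 2 := by ring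
    have h3 : 16 * e ^ 2 = t.card ^ 2 * (4 * δ ^ 2) := by
      calc 16 * e ^ 2 = 4 * (2 * e) ^ 2 := by ring
        _ = _ := by rw [hdeg]; ring
    have h4 : t.card ^ 2 * (4 * δ ^ 2) < t.card ^ 2 * (4 * ∑ q, b q ^ 2) := by
      calc t.card ^ 2 * (4 * δ ^ 2) = 16 * e ^ 2 := h3.symm
        _ < 16 * ∑ i, a i ^ 2 := by omega
        _ ≤ t.card ^ 2 * ∑ i, B i ^ 2 := h2
        _ ≤ t.card ^ 2 * (4 * ∑ q, b q ^ 2) := Nat.mul_le_mul_left _ h1
    have h5 := lt_of_mul_lt_mul_left h4 (Nat.zero_le _)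
    omega
  · have h1 : ∑ i, B i = ∑ q, b q := (hsum_q (fun x => x)).symm
    have h2 : 4 * ∑ i, a i ≤ t.card * ∑ i, B i := by
      rw [Finset.mul_sum, Finset.mul_sum]
      exact Finset.sum_le_sum fun i _ => hBa i
    rw [h1] at h2
    have ht0 : 0 < t.card := by
      rcases Nat.eq_zero_or_pos t.card with h | h
      · rw [h] at hdeg
        omega
      · exact h
    by_contra hlt
    have h3 : ∑ q, b q + 1 ≤ 3 * δ + n := by omega
    have h4 := Nat.mul_le_mul_left t.card h3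
    have h5 : t.card * n ≤ 4 * n := Nat.mul_le_mul_right n hcard
    have h6 : t.card * (3 * δ + n) = 6 * e + t.card * n := by
      calc t.card * (3 * δ + n) = 3 * (t.card * δ) + t.card * n := by ring
        _ = _ := by rw [← hdeg]; ring
    rw [h6, mul_add] at h4
    omega

end Pool.Agent.TH415.HB
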